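import Pool.Agent.Helper53.WR.Defs
import Pool.Agent.Helper53.WR.St.Stubs

set_option autoImplicit false
set_option linter.unusedVariables false

namespace Pool.Agent.Helper96.WR

open Finset
open Pool.Agent.Helper3.Thin (dig und off Lab GoodSet)
open Pool.Agent.Helper53.WR

/-- Index type of the events. -/
abbrev JJ : Type := (ℕ × Lab) ⊕ (Σ _ : ℕ, ℕ)

open Classical in
/-- The bad sets. -/
noncomputable def BB {q : ℕ} (Γ : Finset (ZMod q × ZMod q)) (T O : Finset ℕ) (S : ℕ)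
    (τ : ZMod q × ZMod q → ZMod q × ZMod q) :
    JJ → ((ZMod q × ZMod q) × (ZMod q × ZMod q)) → Finset ℕ
  | Sum.inl ne, p => if p ∈ Γ ×ˢ Γ then (range S).filter (fun s => ∃ o ∈ O, ∃ t ∈ T,
      und p.1 (p.2 + τ p.1) + off q ne.2 + q ^ 4 * (S + s + t) + o = ne.1) else ∅
  | Sum.inr mr, p => if p ∈ Γ ×ˢ Γ then (range S).filter (fun s => ∃ t ∈ T,
      (und p.1 (p.2 + τ p.1) + q ^ 4 * (S + s + t)) % mr.1 = mr.2 % mr.1) else ∅

open Classical in
theorem BB_inl {q : ℕ} (Γ : Finset (ZMod q × ZMod q)) (T O : Finset ℕ) (S : ℕ)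
    (τ : ZMod q × ZMod q → ZMod q × ZMod q) (ne : ℕ × Lab)
    (p : (ZMod q × ZMod q) × (ZMod q × ZMod q)) :
    BB Γ T O S τ (Sum.inl ne) p = if p ∈ Γ ×ˢ Γ then (range S).filter
      (fun s => ∃ o ∈ O, ∃ t ∈ T,
      und p.1 (p.2 + τ p.1) + off q ne.2 + q ^ 4 * (S + s + t) + o = ne.1) else ∅ := rfl

open Classical in
theorem BB_inr {q : ℕ} (Γ : Finset (ZMod q × ZMod q)) (T O : Finset ℕ) (S : ℕ)
    (τ : ZMod q × ZMod q → ZMod q × ZMod q) (mr : Σ _ : ℕ, ℕ)
    (p : (ZMod q × ZMod q) × (ZMod q × ZMod q)) :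
    BB Γ T O S τ (Sum.inr mr) p = if p ∈ Γ ×ˢ Γ then (range S).filter (fun s => ∃ t ∈ T,
      (und p.1 (p.2 + τ p.1) + q ^ 4 * (S + s + t)) % mr.1 = mr.2 % mr.1) else ∅ := rfl

open Classical in
theorem fibre_le {q : ℕ} (hq : 0 < q) (T : Finset ℕ) (S W a n o : ℕ)
    (hW : ∀ a : ℕ, (T.filter (fun t => a ≤ t ∧ t < a + S)).card ≤ W) :
    ((range S).filter (fun s => ∃ t ∈ T, a + q ^ 4 * (S + s + t) + o = n)).card ≤
      if (a + o) % q ^ 4 = n % q ^ 4 then W else 0 := by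
  have hq4 : 0 < q ^ 4 := by positivity
  by_cases hne : ((range S).filter (fun s => ∃ t ∈ T, a + q ^ 4 * (S + s + t) + o = n)).Nonempty
  · obtain ⟨s0, hs0⟩ := hne
    rw [mem_filter, mem_range] at hs0
    obtain ⟨hs0S, t0, ht0, h0⟩ := hs0
    have hmod : (a + o) % q ^ 4 = n % q ^ 4 := by
      rw [← h0]
      have : a + q ^ 4 * (S + s0 + t0) + o = (a + o) + q ^ 4 * (S + s0 + t0) := by ring
      rw [this, Nat.add_mul_mod_self_left]
    rw [if_pos hmod]
    set c := S + s0 + t0 with hc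
    refine le_trans ?_ (hW (c + 1 - 2 * S))
    apply Finset.card_le_card_of_injOn (fun s => c - S - s)
    · intro s hs
      rw [Finset.mem_coe, mem_filter, mem_range] at hs
      obtain ⟨hsS, t, ht, h1⟩ := hs
      have heq : S + s + t = c := by
        have : q ^ 4 * (S + s + t) = q ^ 4 * c := by omega
        exact Nat.eq_of_mul_eq_mul_left hq4 this
      have ht' : c - S - s = t := by omega
      rw [Finset.mem_coe, mem_filter]
      simp only [ht']
      exact ⟨ht, by omega, by omega⟩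
    · intro s hs s' hs' hss
      rw [Finset.mem_coe, mem_filter, mem_range] at hs hs'
      obtain ⟨hsS, t, ht, h1⟩ := hs
      obtain ⟨hsS', t', ht', h1'⟩ := hs'
      have heq : S + s + t = c := by
        have : q ^ 4 * (S + s + t) = q ^ 4 * c := by omega
        exact Nat.eq_of_mul_eq_mul_left hq4 this
      have heq' : S + s' + t' = c := by
        have : q ^ 4 * (S + s' + t') = q ^ 4 * c := by omega
        exact Nat.eq_of_mul_eq_mul_left hq4 this
      simp only at hss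
      omega
  · rw [Finset.not_nonempty_iff_eq_empty] at hne
    rw [hne]
    simp

open Classical in
theorem mass_inl {q : ℕ} [Fact q.Prime] (Γ : Finset (ZMod q × ZMod q))
    (T O : Finset ℕ) (S x H W : ℕ) (τ : ZMod q × ZMod q → ZMod q × ZMod q)
    (hW : ∀ a : ℕ, (T.filter (fun t => a ≤ t ∧ t < a + S)).card ≤ W)
    (hQ : ∀ ν : ℕ, (((Γ ×ˢ Γ) ×ˢ O).filter (fun y =>
        (und y.1.1 (y.1.2 + τ y.1.1) + y.2) % q ^ 4 = ν % q ^ 4)).card ≤ x * H)
    (ne : ℕ × Lab) :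
    ∑ p, (BB Γ T O S τ (Sum.inl ne) p).card ≤ x * H * W := by
  have hq : 0 < q := (Fact.out : q.Prime).pos
  by_cases hn : off q ne.2 ≤ ne.1
  · obtain ⟨ν, hν⟩ := Nat.exists_eq_add_of_le hn
    have h1 : ∀ p, (BB Γ T O S τ (Sum.inl ne) p).card ≤
        if p ∈ Γ ×ˢ Γ then ∑ o ∈ O, (if (und p.1 (p.2 + τ p.1) + o) % q ^ 4 = ν % q ^ 4
          then W else 0) else 0 := by
      intro p
      rw [BB_inl]
      by_cases hp : p ∈ Γ ×ˢ Γ
      · rw [if_pos hp, if_pos hp]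
        calc _ ≤ (O.biUnion (fun o => (range S).filter (fun s => ∃ t ∈ T,
              und p.1 (p.2 + τ p.1) + q ^ 4 * (S + s + t) + o = ν))).card := by
              apply card_le_card
              intro s hs
              rw [mem_filter] at hs
              obtain ⟨hs, o, ho, t, ht, h⟩ := hs
              rw [mem_biUnion]
              refine ⟨o, ho, ?_⟩
              rw [mem_filter]
              exact ⟨hs, t, ht, by omega⟩
          _ ≤ ∑ o ∈ O, ((range S).filter (fun s => ∃ t ∈ T,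
              und p.1 (p.2 + τ p.1) + q ^ 4 * (S + s + t) + o = ν)).card := card_biUnion_le
          _ ≤ _ := Finset.sum_le_sum (fun o _ => fibre_le hq T S W _ ν o hW)
      · rw [if_neg hp, if_neg hp, card_empty]
    calc ∑ p, (BB Γ T O S τ (Sum.inl ne) p).card
        ≤ ∑ p, (if p ∈ Γ ×ˢ Γ then ∑ o ∈ O,
          (if (und p.1 (p.2 + τ p.1) + o) % q ^ 4 = ν % q ^ 4 then W else 0) else 0) :=
          Finset.sum_le_sum (fun p _ => h1 p)
      _ = ∑ p ∈ Γ ×ˢ Γ, ∑ o ∈ O,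
          (if (und p.1 (p.2 + τ p.1) + o) % q ^ 4 = ν % q ^ 4 then W else 0) := by
          rw [Finset.sum_ite_mem, Finset.univ_inter]
      _ = ∑ y ∈ (Γ ×ˢ Γ) ×ˢ O,
          (if (und y.1.1 (y.1.2 + τ y.1.1) + y.2) % q ^ 4 = ν % q ^ 4 then W else 0) := by
          rw [Finset.sum_product (Γ ×ˢ Γ) O]
      _ = (((Γ ×ˢ Γ) ×ˢ O).filter (fun y =>
          (und y.1.1 (y.1.2 + τ y.1.1) + y.2) % q ^ 4 = ν % q ^ 4)).card * W := by
          rw [← Finset.sum_filter, Finset.sum_const, smul_eq_mul]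
      _ ≤ x * H * W := by
          gcongr
          exact hQ ν
  · have h1 : ∀ p, (BB Γ T O S τ (Sum.inl ne) p).card = 0 := by
      intro p
      rw [card_eq_zero]
      rw [BB_inl]
      split_ifs with hp
      · apply Finset.filter_eq_empty_iff.2
        intro s _
        push Not
        intro o _ t _
        omega
      · rfl
    rw [Finset.sum_eq_zero (fun p _ => h1 p)]
    exact Nat.zero_le _

open Classical in
theorem mass_inr {q : ℕ} [Fact q.Prime] (Γ : Finset (ZMod q × ZMod q))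
    (T O : Finset ℕ) (S : ℕ) (τ : ZMod q × ZMod q → ZMod q × ZMod q) (mr : Σ _ : ℕ, ℕ) :
    ∑ p, (BB Γ T O S τ (Sum.inr mr) p).card ≤
      (((Γ ×ˢ Γ) ×ˢ ((range S) ×ˢ T)).filter (fun y =>
        (und y.1.1 (y.1.2 + τ y.1.1) + q ^ 4 * (S + y.2.1 + y.2.2)) % mr.1 = mr.2 % mr.1)).card := by
  have h1 : ∀ p, (BB Γ T O S τ (Sum.inr mr) p).card ≤
      if p ∈ Γ ×ˢ Γ then ∑ z ∈ (range S) ×ˢ T,
        (if (und p.1 (p.2 + τ p.1) + q ^ 4 * (S + z.1 + z.2)) % mr.1 = mr.2 % mr.1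
          then 1 else 0) else 0 := by
    intro p
    rw [BB_inr]
    by_cases hp : p ∈ Γ ×ˢ Γ
    · rw [if_pos hp, if_pos hp, Finset.sum_boole]
      simp only [Nat.cast_id]
      have : ((range S).filter (fun s => ∃ t ∈ T,
          (und p.1 (p.2 + τ p.1) + q ^ 4 * (S + s + t)) % mr.1 = mr.2 % mr.1)) ⊆
          (((range S) ×ˢ T).filter (fun z =>
          (und p.1 (p.2 + τ p.1) + q ^ 4 * (S + z.1 + z.2)) % mr.1 = mr.2 % mr.1)).image
            Prod.fst := by
        intro s hs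
        rw [mem_filter] at hs
        obtain ⟨hs, t, ht, h⟩ := hs
        rw [mem_image]
        exact ⟨(s, t), by rw [mem_filter, mem_product]; exact ⟨⟨hs, ht⟩, h⟩, rfl⟩
      exact le_trans (card_le_card this) card_image_le
    · rw [if_neg hp, if_neg hp, card_empty]
  calc ∑ p, (BB Γ T O S τ (Sum.inr mr) p).card
      ≤ ∑ p, (if p ∈ Γ ×ˢ Γ then ∑ z ∈ (range S) ×ˢ T,
        (if (und p.1 (p.2 + τ p.1) + q ^ 4 * (S + z.1 + z.2)) % mr.1 = mr.2 % mr.1
          then 1 else 0) else 0) := Finset.sum_le_sum (fun p _ => h1 p)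
    _ = ∑ p ∈ Γ ×ˢ Γ, ∑ z ∈ (range S) ×ˢ T,
        (if (und p.1 (p.2 + τ p.1) + q ^ 4 * (S + z.1 + z.2)) % mr.1 = mr.2 % mr.1
          then 1 else 0) := by
        rw [Finset.sum_ite_mem, Finset.univ_inter]
    _ = ∑ y ∈ (Γ ×ˢ Γ) ×ˢ ((range S) ×ˢ T),
        (if (und y.1.1 (y.1.2 + τ y.1.1) + q ^ 4 * (S + y.2.1 + y.2.2)) % mr.1 = mr.2 % mr.1
          then 1 else 0) := by
        rw [Finset.sum_product (Γ ×ˢ Γ) ((range S) ×ˢ T)]
    _ ≤ _ := by
        rw [Finset.sum_boole]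
        simp

/-- WR-B2 (choice of σ). `W` bounds the number of elements of `T` in a window of length `S`. -/
theorem sigma_select {q : ℕ} [Fact q.Prime] (Γ : Finset (ZMod q × ZMod q))
    (T O : Finset ℕ) (S : ℕ) (hS : 0 < S) (x H W N t0 : ℕ) (Mod : Finset ℕ)
    (hMod : ∀ m ∈ Mod, 0 < m) (τ : ZMod q × ZMod q → ZMod q × ZMod q)
    (hW : ∀ a : ℕ, (T.filter (fun t => a ≤ t ∧ t < a + S)).card ≤ W)
    (hQ : ∀ ν : ℕ, (((Γ ×ˢ Γ) ×ˢ O).filter (fun y =>
        (und y.1.1 (y.1.2 + τ y.1.1) + y.2) % q ^ 4 = ν % q ^ 4)).card ≤ x * H)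
    (hM : ∀ m ∈ Mod, ∀ r : ℕ, ((((Γ ×ˢ Γ) ×ˢ ((range S) ×ˢ T)).filter (fun y =>
        (und y.1.1 (y.1.2 + τ y.1.1) + q ^ 4 * (S + y.2.1 + y.2.2)) % m = r % m)).card : ℝ)
          ≤ x * (T.card * ((q : ℝ) ^ 2 * S / m + 1)))
    (AX : ℝ) (hAX : 1 ≤ AX)
    (hX : (N : ℝ) * 4096 * (Real.exp (AX * ((x : ℝ) * H * W / S)) / AX ^ t0) < 1 / 2)
    (AM : ℕ → ℝ) (hAM : ∀ m ∈ Mod, 1 ≤ AM m) (y : ℕ → ℕ)
    (hY : ∑ m ∈ Mod, (m : ℝ) * (Real.exp (AM m *
      ((x : ℝ) * (T.card * ((q : ℝ) ^ 2 / m + 1 / S)))) / AM m ^ y m) < 1 / 2) :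
    ∃ σ : (ZMod q × ZMod q) × (ZMod q × ZMod q) → ℕ, (∀ p, σ p < S) ∧
      (∀ n < N, ∀ ε : Lab, ((Γ ×ˢ Γ).filter (fun p => ∃ o ∈ O, ∃ t ∈ T,
        elt S τ σ p ε t + o = n)).card < t0) ∧
      ∀ m ∈ Mod, ∀ r : ℕ, ((Γ ×ˢ Γ).filter (fun p => ∃ t ∈ T,
        (und p.1 (p.2 + τ p.1) + q ^ 4 * (S + σ p + t)) % m = r % m)).card < y m := by
  classical
  have hSr : (0 : ℝ) < S := by exact_mod_cast hS
  obtain ⟨σ, hσ, hcount⟩ := St.sigma_exists (ι := (ZMod q × ZMod q) × (ZMod q × ZMod q)) S hS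
    (J := JJ) (((range N) ×ˢ (univ : Finset Lab)).disjSum (Mod.sigma (fun m => range m)))
    (BB Γ T O S τ)
    (by
      intro j _ i
      rcases j with ne | mr
      · rw [BB_inl]
        split_ifs
        · exact filter_subset _ _
        · exact empty_subset _
      · rw [BB_inr]
        split_ifs
        · exact filter_subset _ _
        · exact empty_subset _)
    (Sum.elim (fun _ => (x : ℝ) * H * W / S)
      (fun mr => (x : ℝ) * (T.card * ((q : ℝ) ^ 2 / mr.1 + 1 / S))))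
    (Sum.elim (fun _ => AX) (fun mr => AM mr.1))
    (Sum.elim (fun _ => t0) (fun mr => y mr.1))
    (by
      intro j hj
      rcases j with ne | mr
      · simpa using hAX
      · rw [Finset.inr_mem_disjSum, mem_sigma] at hj
        simpa using hAM _ hj.1)
    (by
      intro j hj
      rcases j with ne | mr
      · simp only [Sum.elim_inl]
        rw [div_mul_cancel₀ _ hSr.ne']
        exact_mod_cast mass_inl Γ T O S x H W τ hW hQ ne
      · rw [Finset.inr_mem_disjSum, mem_sigma] at hj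
        simp only [Sum.elim_inr]
        have h1 := mass_inr Γ T O S τ mr
        have h2 := hM mr.1 hj.1 mr.2
        have h3 : (x : ℝ) * (T.card * ((q : ℝ) ^ 2 / mr.1 + 1 / S)) * S =
            x * (T.card * ((q : ℝ) ^ 2 * S / mr.1 + 1)) := by
          field_simp
        rw [h3]
        refine le_trans ?_ h2
        exact_mod_cast h1)
    (by
      rw [Finset.sum_disjSum, Finset.sum_sigma]
      simp only [Sum.elim_inl, Sum.elim_inr, Finset.sum_const, nsmul_eq_mul, card_range,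
        card_product]
      have h4096 : (univ : Finset Lab).card = 4096 := by
        simp [Lab]
      rw [h4096]
      push_cast
      linarith)
  refine ⟨σ, hσ, ?_, ?_⟩
  · intro n hn ε
    have h := hcount (Sum.inl (n, ε)) (by
      rw [Finset.inl_mem_disjSum, mem_product, mem_range]
      exact ⟨hn, mem_univ _⟩)
    simp only [Sum.elim_inl] at h
    refine lt_of_le_of_lt (card_le_card ?_) h
    intro p hp
    rw [mem_filter] at hp
    obtain ⟨hp, o, ho, t, ht, he⟩ := hp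
    rw [mem_filter]
    refine ⟨mem_univ _, ?_⟩
    rw [BB_inl]
    rw [if_pos hp, mem_filter, mem_range]
    exact ⟨hσ p, o, ho, t, ht, he⟩
  · intro m hm r
    have h := hcount (Sum.inr ⟨m, r % m⟩) (by
      rw [Finset.inr_mem_disjSum, mem_sigma, mem_range]
      exact ⟨hm, Nat.mod_lt _ (hMod m hm)⟩)
    simp only [Sum.elim_inr] at h
    refine lt_of_le_of_lt (card_le_card ?_) h
    intro p hp
    rw [mem_filter] at hp
    obtain ⟨hp, t, ht, he⟩ := hp
    rw [mem_filter]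
    refine ⟨mem_univ _, ?_⟩
    rw [BB_inr]
    rw [if_pos hp, mem_filter, mem_range]
    exact ⟨hσ p, t, ht, by simpa using he⟩

end Pool.Agent.Helper96.WR
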